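import Mathlib

/-!
Project WG (MP_2cc37a_an): oblique projections of prevalent Weierstrass graphs.
-/

namespace Pool.Agent.R244.WG

open MeasureTheory Set Metric Topology Filter
open scoped ENNReal NNReal

/-- Lipschitz functions on the circle, as `1`-periodic Lipschitz functions on the line. -/
def lipSub : Submodule ℝ (ℝ → ℝ) where
  carrier := {g | Function.Periodic g 1 ∧ ∃ C : ℝ≥0, LipschitzWith C g}
  add_mem' := by
    rintro f g ⟨hf, C, hC⟩ ⟨hg, D, hD⟩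
    exact ⟨hf.add hg, C + D, hC.add hD⟩
  zero_mem' := ⟨fun x => rfl, 0, LipschitzWith.const' (0 : ℝ)⟩
  smul_mem' := by
    rintro c f ⟨hf, C, hC⟩
    refine ⟨fun x => by simp [hf x], ‖c‖₊ * C, ?_⟩
    exact LipschitzWith.of_dist_le_mul fun x y => by
      have := hC.dist_le_mul x y
      simp only [Pi.smul_apply, smul_eq_mul, Real.dist_eq, NNReal.coe_mul, coe_nnnorm,
        Real.norm_eq_abs] at this ⊢
      rw [← mul_sub, abs_mul, mul_assoc]
      exact mul_le_mul_of_nonneg_left this (abs_nonneg _)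

/-- The space of Lipschitz functions on the circle. -/
def Lip : Type := lipSub

noncomputable instance : AddCommGroup Lip := inferInstanceAs (AddCommGroup lipSub)

/-- The value of an element of `Lip` at a point. -/
def Lip.ev (g : Lip) : ℝ → ℝ := g.1

/-- The sum of the supremum and of the least Lipschitz constant. -/
noncomputable def lipN (g : ℝ → ℝ) : ℝ :=
  (⨆ x : ℝ, |g x|) + ⨆ p : ℝ × ℝ, |g p.1 - g p.2| / |p.1 - p.2|

theorem bdd1 {g : ℝ → ℝ} (hg : g ∈ lipSub) : BddAbove (range fun x : ℝ => |g x|) := by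
  obtain ⟨hp, C, hC⟩ := hg
  obtain ⟨B, hB⟩ := (isCompact_Icc (a := (0 : ℝ)) (b := 1)).bddAbove_image
    (f := fun x => |g x|) hC.continuous.abs.continuousOn
  refine ⟨B, ?_⟩
  rintro _ ⟨x, rfl⟩
  have h1 : g x = g (Int.fract x) := by
    have := hp.sub_zsmul_eq (x := x) ⌊x⌋
    simp only [zsmul_eq_mul, mul_one] at this
    rw [← this]; rfl
  simp only [h1]
  exact hB ⟨_, ⟨Int.fract_nonneg x, (Int.fract_lt_one x).le⟩, rfl⟩

theorem bdd2 {g : ℝ → ℝ} (hg : g ∈ lipSub) :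
    BddAbove (range fun p : ℝ × ℝ => |g p.1 - g p.2| / |p.1 - p.2|) := by
  obtain ⟨hp, C, hC⟩ := hg
  refine ⟨C, ?_⟩
  rintro _ ⟨p, rfl⟩
  have := hC.dist_le_mul p.1 p.2
  rw [Real.dist_eq, Real.dist_eq] at this
  exact div_le_of_le_mul₀ (abs_nonneg _) C.2 this

/-- The norm of `Lip`. -/
noncomputable def lipGN : AddGroupNorm Lip where
  toFun g := lipN g.1
  map_zero' := by
    have : (0 : Lip).1 = (0 : ℝ → ℝ) := rfl
    simp [lipN, this]
  add_le' f g := by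
    have hfg : (f + g).1 = f.1 + g.1 := rfl
    simp only [lipN, hfg]
    have h1 : (⨆ x : ℝ, |(f.1 + g.1) x|) ≤ (⨆ x : ℝ, |f.1 x|) + ⨆ x : ℝ, |g.1 x| := by
      apply ciSup_le
      intro x
      exact (abs_add_le _ _).trans (add_le_add (le_ciSup (bdd1 f.2) x) (le_ciSup (bdd1 g.2) x))
    have h2 : (⨆ p : ℝ × ℝ, |(f.1 + g.1) p.1 - (f.1 + g.1) p.2| / |p.1 - p.2|) ≤
        (⨆ p : ℝ × ℝ, |f.1 p.1 - f.1 p.2| / |p.1 - p.2|) +
        ⨆ p : ℝ × ℝ, |g.1 p.1 - g.1 p.2| / |p.1 - p.2| := by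
      apply ciSup_le
      intro p
      refine le_trans ?_ (add_le_add (le_ciSup (bdd2 f.2) p) (le_ciSup (bdd2 g.2) p))
      simp only [Pi.add_apply]
      rw [← add_div]
      refine div_le_div_of_nonneg_right ?_ (abs_nonneg _)
      have : f.1 p.1 + g.1 p.1 - (f.1 p.2 + g.1 p.2) = (f.1 p.1 - f.1 p.2) + (g.1 p.1 - g.1 p.2) := by
        ring
      rw [this]
      exact abs_add_le _ _
    linarith
  neg' f := by
    have hf : (-f).1 = -f.1 := rfl
    simp only [lipN, hf, Pi.neg_apply, abs_neg]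
    congr 1
    congr 1
    ext p
    rw [show -f.1 p.1 - -f.1 p.2 = -(f.1 p.1 - f.1 p.2) by ring, abs_neg]
  eq_zero_of_map_eq_zero' f hf := by
    simp only [lipN] at hf
    have h1 : 0 ≤ ⨆ x : ℝ, |f.1 x| := Real.iSup_nonneg fun x => abs_nonneg _
    have h2 : 0 ≤ ⨆ p : ℝ × ℝ, |f.1 p.1 - f.1 p.2| / |p.1 - p.2| :=
      Real.iSup_nonneg fun p => by positivity
    have h3 : (⨆ x : ℝ, |f.1 x|) = 0 := by linarith
    apply Subtype.ext
    ext x
    have h4 := le_ciSup (bdd1 f.2) x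
    rw [h3] at h4
    exact abs_nonpos_iff.1 h4

noncomputable instance : NormedAddCommGroup Lip := lipGN.toNormedAddCommGroup

theorem ev_le (g : Lip) (x : ℝ) : |g.1 x| ≤ ‖g‖ := by
  have h2 : 0 ≤ ⨆ p : ℝ × ℝ, |g.1 p.1 - g.1 p.2| / |p.1 - p.2| :=
    Real.iSup_nonneg fun p => by positivity
  have h4 := le_ciSup (bdd1 g.2) x
  have h5 : ‖g‖ = lipN g.1 := rfl
  rw [h5]
  simp only [lipN]
  linarith

/-- The Weierstrass function of `g`. -/
noncomputable def W (b : ℕ) (α : ℝ) (g : ℝ → ℝ) (x : ℝ) : ℝ :=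
  ∑' k : ℕ, (b : ℝ) ^ (-(α * k)) * g ((b : ℝ) ^ k * x)

/-- Shy subsets of `Lip` (their complements are the prevalent sets). -/
def Shy (A : Set Lip) : Prop :=
  ∃ (ν : @Measure Lip (borel Lip)) (B : Set Lip), A ⊆ B ∧ MeasurableSet[borel Lip] B ∧
    (∃ K : Set Lip, IsCompact K ∧ 0 < ν K ∧ ν K < ⊤) ∧ ∀ x : Lip, ν ((fun y => x + y) '' B) = 0

/-- The integer coding the digits of `x` at the positions `p + 1, ..., p + k`. -/
noncomputable def wd (b k p : ℕ) (x : ℝ) : ℕ := ⌊(b : ℝ) ^ k * Int.fract ((b : ℝ) ^ p * x)⌋₊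

/-- The distance to the nearest integer multiple of `b ^ (-k)`. -/
noncomputable def tent (b k : ℕ) (x : ℝ) : ℝ :=
  min (Int.fract ((b : ℝ) ^ k * x)) (1 - Int.fract ((b : ℝ) ^ k * x)) / (b : ℝ) ^ k

/-- Sample space: one coefficient in `[0, 1]` for each cylinder. -/
abbrev Om : Type := ℕ × ℕ → unitInterval

/-- The random Lipschitz function. -/
noncomputable def rnd (b : ℕ) (c : Om) (x : ℝ) : ℝ :=
  ∑' k : ℕ, 1 / ((k : ℝ) + 1) ^ 2 * ((c (k, wd b k 0 x) : ℝ) * tent b k x)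

/-- Sensitivity of the Weierstrass function to a coefficient. -/
noncomputable def V (b : ℕ) (α : ℝ) (k u : ℕ) (x : ℝ) : ℝ :=
  ∑' i : ℕ, (b : ℝ) ^ (-(α * i)) * (if wd b k i x = u then tent b k ((b : ℝ) ^ i * x) else 0)

/-- Points which are not too close to the endpoints of cylinders. -/
def E (b q K : ℕ) : Set ℝ :=
  {x | x ∈ Ico (0 : ℝ) 1 ∧ ∀ k, K ≤ k → ∀ l, l < q →
    ((b : ℝ) ^ (2 * k))⁻¹ ≤ tent b k ((b : ℝ) ^ (l * k) * x)}

/-- Bad configurations of points. -/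
def Bad (b q k M P : ℕ) : Set (Fin M → ℝ) :=
  {x | (∀ j, x j ∈ Ico (0 : ℝ) 1) ∧ ∀ l, l < q → ∀ j : Fin M, ∃ i, i < P ∧ ∃ j' : Fin M,
    (i, j') ≠ (l * k, j) ∧ wd b k i (x j') = wd b k (l * k) (x j)}

/-- Fourier coefficient of the oblique occupation measure restricted to `A`. -/
noncomputable def FC (b : ℕ) (α : ℝ) (A : Set ℝ) (g : ℝ → ℝ) (t n : ℝ) : ℂ :=
  ∫ x in A, Complex.exp (Complex.I * ((n * (W b α g x + t * x) : ℝ) : ℂ))

/-- Product measure. -/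
noncomputable def PP (ρ : Measure unitInterval) [IsProbabilityMeasure ρ] : Measure Om :=
  Measure.infinitePi (fun _ : ℕ × ℕ => ρ)

/-- The random sum controlling all Fourier coefficients. -/
noncomputable def SS (b : ℕ) (α : ℝ) (q m : ℕ) (s : ℝ) (K R₀ : ℕ) (g : ℝ → ℝ) : ℝ≥0∞ :=
  ∑' n : ℕ, ∑ j ∈ (Finset.Icc (-((R₀ : ℤ) * ((n : ℤ) + 1) ^ 2)) ((R₀ : ℤ) * ((n : ℤ) + 1) ^ 2) :
      Finset ℤ),
    ENNReal.ofReal (((n : ℝ) + 1) ^ (2 * m * s)) *
      ‖FC b α (E b q K) g ((j : ℝ) / ((n : ℝ) + 1) ^ 2) ((n : ℝ) + 1)‖ₑ ^ (2 * m)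

end Pool.Agent.R244.WG
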