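import Pool.Agent.R244.WG.Stm

/-! Absolute continuity from square summable Fourier coefficients. -/

set_option autoImplicit false

namespace Pool.Agent.R244.WG

open MeasureTheory Set Metric Topology Filter
open scoped ENNReal NNReal

namespace AC

/-- the period -/
noncomputable abbrev T : ℝ := 2 * Real.pi

noncomputable instance : Fact (0 < T) := ⟨Real.two_pi_pos⟩

theorem span_bound (μ : Measure (AddCircle T)) [IsFiniteMeasure μ]
    (hs : Summable (fun n : ℤ => ‖∫ y, fourier n y ∂μ‖ ^ 2)) (h : C(AddCircle T, ℂ))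
    (hh : h ∈ Submodule.span ℂ (range (@fourier T))) :
    ‖∫ y, h y ∂μ‖ ≤ Real.sqrt (∑' n : ℤ, ‖∫ y, fourier n y ∂μ‖ ^ 2) *
      ‖ContinuousMap.toLp 2 AddCircle.haarAddCircle ℂ h‖ := by
  obtain ⟨c, rfl⟩ := (Finsupp.mem_span_range_iff_exists_finsupp).1 hh
  unfold Finsupp.sum
  have hi : ∀ n : ℤ, Integrable (fun y => fourier n y) μ := fun n =>
    (map_continuous (fourier n)).integrable_of_hasCompactSupport
      (HasCompactSupport.of_compactSpace _)
  have e1 : ∫ y, (∑ n ∈ c.support, c n • fourier n : C(AddCircle T, ℂ)) y ∂μ =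
      ∑ n ∈ c.support, c n * ∫ y, fourier n y ∂μ := by
    simp only [ContinuousMap.coe_sum, Finset.sum_apply, ContinuousMap.coe_smul, Pi.smul_apply,
      smul_eq_mul]
    rw [integral_finsetSum]
    · exact Finset.sum_congr rfl (fun n _ => integral_const_mul _ _)
    · intro n _
      exact (hi n).const_mul _
  have e2 : ContinuousMap.toLp 2 AddCircle.haarAddCircle ℂ
      (∑ n ∈ c.support, c n • fourier n : C(AddCircle T, ℂ)) =
      ∑ n ∈ c.support, c n • (fourierLp 2 n : Lp ℂ 2 (AddCircle.haarAddCircle (T := T))) := by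
    rw [map_sum]
    refine Finset.sum_congr rfl (fun n _ => ?_)
    rw [map_smul]
  have e3 : ‖∑ n ∈ c.support, c n • (fourierLp 2 n : Lp ℂ 2 (AddCircle.haarAddCircle (T := T)))‖ =
      Real.sqrt (∑ n ∈ c.support, ‖c n‖ ^ 2) := by
    rw [eq_comm, Real.sqrt_eq_iff_mul_self_eq (Finset.sum_nonneg (fun n _ => sq_nonneg _))
      (norm_nonneg _), ← sq]
    have h1 := (orthonormal_fourier (T := T)).inner_sum c c c.support
    have h2 := inner_self_eq_norm_sq (𝕜 := ℂ)
      (∑ n ∈ c.support, c n • (fourierLp 2 n : Lp ℂ 2 (AddCircle.haarAddCircle (T := T))))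
    rw [← h2, h1, map_sum]
    refine Finset.sum_congr rfl (fun n _ => ?_)
    rw [← Complex.normSq_eq_conj_mul_self, Complex.normSq_eq_norm_sq]
    norm_cast
  rw [e1, e2, e3]
  calc ‖∑ n ∈ c.support, c n * ∫ y, fourier n y ∂μ‖
      ≤ ∑ n ∈ c.support, ‖∫ y, fourier n y ∂μ‖ * ‖c n‖ := by
        refine (norm_sum_le _ _).trans (Finset.sum_le_sum (fun n _ => ?_))
        rw [norm_mul, mul_comm]
    _ ≤ Real.sqrt (∑ n ∈ c.support, ‖∫ y, fourier n y ∂μ‖ ^ 2) *
          Real.sqrt (∑ n ∈ c.support, ‖c n‖ ^ 2) := Real.sum_mul_le_sqrt_mul_sqrt _ _ _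
    _ ≤ _ := by
        refine mul_le_mul_of_nonneg_right ?_ (Real.sqrt_nonneg _)
        exact Real.sqrt_le_sqrt (hs.sum_le_tsum _ (fun n _ => sq_nonneg _))

theorem all_bound (μ : Measure (AddCircle T)) [IsFiniteMeasure μ]
    (hs : Summable (fun n : ℤ => ‖∫ y, fourier n y ∂μ‖ ^ 2)) (h : C(AddCircle T, ℂ)) :
    ‖∫ y, h y ∂μ‖ ≤ Real.sqrt (∑' n : ℤ, ‖∫ y, fourier n y ∂μ‖ ^ 2) *
      ‖ContinuousMap.toLp 2 AddCircle.haarAddCircle ℂ h‖ := by
  have hint : ∀ f : C(AddCircle T, ℂ), Integrable (fun y => f y) μ := fun f =>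
    (map_continuous f).integrable_of_hasCompactSupport (HasCompactSupport.of_compactSpace _)
  have hcont : Continuous (fun f : C(AddCircle T, ℂ) => ∫ y, f y ∂μ) := by
    have hlip : ∀ f g : C(AddCircle T, ℂ), dist (∫ y, f y ∂μ) (∫ y, g y ∂μ) ≤
        (μ.real univ) * dist f g := by
      intro f g
      rw [dist_eq_norm, ← integral_sub (hint f) (hint g), mul_comm]
      refine norm_integral_le_of_norm_le_const (Filter.Eventually.of_forall (fun y => ?_))
      rw [← dist_eq_norm]
      exact ContinuousMap.dist_apply_le_dist y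
    exact (LipschitzWith.of_dist_le_mul (K := ⟨μ.real univ, measureReal_nonneg⟩) hlip).continuous
  have hclosed : IsClosed {f : C(AddCircle T, ℂ) | ‖∫ y, f y ∂μ‖ ≤
      Real.sqrt (∑' n : ℤ, ‖∫ y, fourier n y ∂μ‖ ^ 2) *
      ‖ContinuousMap.toLp 2 AddCircle.haarAddCircle ℂ f‖} := by
    refine isClosed_le hcont.norm (continuous_const.mul ?_)
    exact (ContinuousMap.toLp 2 (AddCircle.haarAddCircle (T := T)) ℂ
      (E := ℂ)).continuous.norm
  have hsub : (Submodule.span ℂ (range (@fourier T)) : Set C(AddCircle T, ℂ)) ⊆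
      {f : C(AddCircle T, ℂ) | ‖∫ y, f y ∂μ‖ ≤
      Real.sqrt (∑' n : ℤ, ‖∫ y, fourier n y ∂μ‖ ^ 2) *
      ‖ContinuousMap.toLp 2 AddCircle.haarAddCircle ℂ f‖} := fun f hf => span_bound μ hs f hf
  have hcl := closure_minimal hsub hclosed
  have htop : h ∈ (Submodule.span ℂ (range (@fourier T))).topologicalClosure := by
    rw [span_fourier_closure_eq_top]; trivial
  exact hcl htop

theorem compact_null (μ : Measure (AddCircle T)) [IsFiniteMeasure μ]
    (hs : Summable (fun n : ℤ => ‖∫ y, fourier n y ∂μ‖ ^ 2)) (K : Set (AddCircle T))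
    (hK : IsCompact K) (hK0 : AddCircle.haarAddCircle K = 0) : μ K = 0 := by
  set C := Real.sqrt (∑' n : ℤ, ‖∫ y, fourier n y ∂μ‖ ^ 2) with hC
  have hC0 : 0 ≤ C := Real.sqrt_nonneg _
  have key : ∀ ε : ℝ, 0 < ε → μ.real K ≤ C * Real.sqrt ε := by
    intro ε hε
    have hlt : AddCircle.haarAddCircle K < ENNReal.ofReal ε := by
      rw [hK0]; exact ENNReal.ofReal_pos.2 hε
    obtain ⟨U, hKU, hU, hUε⟩ := K.exists_isOpen_lt_of_lt _ hlt
    obtain ⟨f, hf1, hf0, -, hfI⟩ := exists_continuous_one_zero_of_isCompact hK hU.isClosed_compl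
      (disjoint_compl_right_iff_subset.2 hKU)
    set g : C(AddCircle T, ℂ) := ⟨fun y => ((f y : ℝ) : ℂ), by fun_prop⟩ with hg
    have hb := all_bound μ hs g
    have hfint : ∀ ν : Measure (AddCircle T), IsFiniteMeasure ν → Integrable (fun y => f y) ν :=
      fun ν _ => (map_continuous f).integrable_of_hasCompactSupport
        (HasCompactSupport.of_compactSpace _)
    have e1 : ∫ y, g y ∂μ = ((∫ y, f y ∂μ : ℝ) : ℂ) := integral_ofReal
    have e2 : μ.real K ≤ ∫ y, f y ∂μ := by
      have h1 : μ.real K = ∫ y, K.indicator (fun _ => (1 : ℝ)) y ∂μ := by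
        rw [integral_indicator hK.measurableSet]
        simp
      rw [h1]
      refine integral_mono ((integrable_const (1 : ℝ)).indicator hK.measurableSet)
        (hfint μ inferInstance) (fun y => ?_)
      by_cases hy : y ∈ K
      · simp only [indicator_of_mem hy]
        rw [hf1 hy]; simp
      · simp only [indicator_of_notMem hy]
        exact (hfI y).1
    have e3 : ‖ContinuousMap.toLp 2 (AddCircle.haarAddCircle (T := T)) ℂ g‖ ≤ Real.sqrt ε := by
      apply Real.le_sqrt_of_sq_le
      have h1 := inner_self_eq_norm_sq (𝕜 := ℂ)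
        (ContinuousMap.toLp 2 (AddCircle.haarAddCircle (T := T)) ℂ g)
      rw [← h1, ContinuousMap.inner_toLp]
      have h2 : ∀ y, g y * (starRingEnd ℂ) (g y) = ((f y ^ 2 : ℝ) : ℂ) := by
        intro y
        show ((f y : ℝ) : ℂ) * (starRingEnd ℂ) ((f y : ℝ) : ℂ) = _
        rw [Complex.conj_ofReal]
        push_cast
        ring
      simp_rw [h2]
      have h7 : ∫ y, ((f y ^ 2 : ℝ) : ℂ) ∂(AddCircle.haarAddCircle (T := T)) =
          ((∫ y, f y ^ 2 ∂(AddCircle.haarAddCircle (T := T)) : ℝ) : ℂ) := integral_ofReal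
      rw [h7]
      have h3 : ∫ y, f y ^ 2 ∂(AddCircle.haarAddCircle (T := T)) ≤
          ∫ y, U.indicator (fun _ => (1 : ℝ)) y ∂(AddCircle.haarAddCircle (T := T)) := by
        refine integral_mono ?_ ((integrable_const (1 : ℝ)).indicator hU.measurableSet)
          (fun y => ?_)
        · exact (Continuous.integrable_of_hasCompactSupport (by fun_prop)
            (HasCompactSupport.of_compactSpace _))
        · by_cases hy : y ∈ U
          · simp only [indicator_of_mem hy]
            have := hfI y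
            nlinarith [this.1, this.2]
          · simp only [indicator_of_notMem hy]
            have h4 : f y = 0 := hf0 hy
            rw [h4]; norm_num
      have h5 : ∫ y, U.indicator (fun _ => (1 : ℝ)) y ∂(AddCircle.haarAddCircle (T := T)) ≤ ε := by
        rw [integral_indicator hU.measurableSet]
        simp only [integral_const, smul_eq_mul, mul_one, measureReal_restrict_apply_univ]
        exact ENNReal.toReal_le_of_le_ofReal hε.le hUε.le
      have h6 : RCLike.re (((∫ y, f y ^ 2 ∂(AddCircle.haarAddCircle (T := T)) : ℝ)) : ℂ) =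
          ∫ y, f y ^ 2 ∂(AddCircle.haarAddCircle (T := T)) := Complex.ofReal_re _
      exact (le_of_eq h6).trans (h3.trans h5)
    have e4 : (∫ y, f y ∂μ) ≤ ‖∫ y, g y ∂μ‖ := by
      rw [e1, Complex.norm_real]
      exact le_abs_self _
    exact e2.trans (e4.trans (hb.trans (mul_le_mul_of_nonneg_left e3 hC0)))
  have hlim : Tendsto (fun ε : ℝ => C * Real.sqrt ε) (𝓝[>] 0) (𝓝 (C * Real.sqrt 0)) := by
    apply Tendsto.mono_left _ nhdsWithin_le_nhds
    exact (continuous_const.mul Real.continuous_sqrt).tendsto 0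
  have h0 : μ.real K ≤ C * Real.sqrt 0 :=
    ge_of_tendsto hlim (eventually_nhdsWithin_of_forall (fun ε hε => key ε hε))
  rw [Real.sqrt_zero, mul_zero] at h0
  have h1 : μ.real K = 0 := le_antisymm h0 measureReal_nonneg
  exact (measureReal_eq_zero_iff (measure_ne_top _ _)).1 h1

theorem circle_ac (μ : Measure (AddCircle T)) [IsFiniteMeasure μ]
    (hs : Summable (fun n : ℤ => ‖∫ y, fourier n y ∂μ‖ ^ 2)) :
    μ ≪ AddCircle.haarAddCircle := by
  refine Measure.AbsolutelyContinuous.mk (fun N hN hN0 => ?_)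
  rw [hN.measure_eq_iSup_isCompact_of_ne_top (measure_ne_top _ _)]
  simp only [ENNReal.iSup_eq_zero]
  intro K hKN hK
  exact compact_null μ hs K hK (le_antisymm ((measure_mono hKN).trans hN0.le) zero_le)

end AC

open AC in
theorem t_AC : S_AC := by
  intro F A hF hA hA01 hsum
  have hAfin : IsFiniteMeasure (volume.restrict A) := by
    refine ⟨?_⟩
    rw [Measure.restrict_apply_univ]
    refine (measure_mono hA01).trans_lt ?_
    rw [Real.volume_Ico]
    exact ENNReal.ofReal_lt_top
  set G : ℝ → AddCircle T := fun x => ((F x : ℝ) : AddCircle T) with hG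
  have hGm : Measurable G := AddCircle.measurable_mk'.comp hF
  set μ : Measure (AddCircle T) := (volume.restrict A).map G with hμ
  haveI : IsFiniteMeasure μ := Measure.isFiniteMeasure_map _ _
  -- Fourier coefficients
  have hcoef : ∀ n : ℤ, ∫ y, fourier n y ∂μ =
      ∫ x in A, Complex.exp (Complex.I * ((n * F x : ℝ) : ℂ)) := by
    intro n
    rw [hμ, integral_map hGm.aemeasurable (map_continuous (fourier n)).aestronglyMeasurable]
    refine integral_congr_ae (Filter.Eventually.of_forall (fun x => ?_))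
    show fourier n ((F x : ℝ) : AddCircle T) = _
    rw [fourier_coe_apply]
    congr 1
    have hpi : (Real.pi : ℂ) ≠ 0 := by exact_mod_cast Real.pi_ne_zero
    push_cast
    field_simp
  have hneg : ∀ n : ℤ, ‖∫ y, fourier (-n) y ∂μ‖ = ‖∫ y, fourier n y ∂μ‖ := by
    intro n
    have h1 : ∫ y, fourier (-n) y ∂μ = (starRingEnd ℂ) (∫ y, fourier n y ∂μ) := by
      rw [← integral_conj]
      refine integral_congr_ae (Filter.Eventually.of_forall (fun y => ?_))
      exact fourier_neg
    rw [h1, RCLike.norm_conj]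
  have hnat : Summable (fun n : ℕ => ‖∫ y, fourier (n : ℤ) y ∂μ‖ ^ 2) := by
    refine hsum.congr (fun n => ?_)
    rw [hcoef]
    norm_cast
  have hs : Summable (fun n : ℤ => ‖∫ y, fourier n y ∂μ‖ ^ 2) := by
    refine Summable.of_nat_of_neg hnat ?_
    refine hnat.congr (fun n => ?_)
    rw [hneg]
  have hac := circle_ac μ hs
  refine Measure.AbsolutelyContinuous.mk (fun N hN hN0 => ?_)
  -- the lifted null sets
  set N' : ℤ → Set (AddCircle T) := fun j =>
    {c | ((AddCircle.measurableEquivIoc T (j * T) c : Ioc ((j : ℝ) * T) (j * T + T)) : ℝ) ∈ N}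
    with hN'
  have hN'm : ∀ j, MeasurableSet (N' j) := fun j =>
    (measurable_subtype_coe.comp (AddCircle.measurableEquivIoc T (j * T)).measurable) hN
  have hpt : ∀ (j : ℤ) (x : ℝ), x ∈ Ioc ((j : ℝ) * T) (j * T + T) →
      ((AddCircle.measurableEquivIoc T (j * T) (x : AddCircle T) :
        Ioc ((j : ℝ) * T) (j * T + T)) : ℝ) = x := by
    intro j x hx
    have h1 : (AddCircle.measurableEquivIoc T (j * T)).symm ⟨x, hx⟩ = (x : AddCircle T) := rfl
    rw [← h1, MeasurableEquiv.apply_symm_apply]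
  have hN'0 : ∀ j, μ (N' j) = 0 := by
    intro j
    apply hac
    have h1 : (volume : Measure (AddCircle T)) (N' j) = 0 := by
      rw [← (AddCircle.measurePreserving_mk T (j * T)).measure_preimage (hN'm j).nullMeasurableSet,
        Measure.restrict_apply (AddCircle.measurable_mk' (hN'm j))]
      refine measure_mono_null ?_ hN0
      rintro x ⟨hx1, hx2⟩
      have h2 : ((AddCircle.measurableEquivIoc T (j * T) (x : AddCircle T) :
        Ioc ((j : ℝ) * T) (j * T + T)) : ℝ) ∈ N := hx1
      rwa [hpt j x hx2] at h2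
    rw [AddCircle.volume_eq_smul_haarAddCircle, Measure.smul_apply, smul_eq_mul,
      mul_eq_zero] at h1
    rcases h1 with h1 | h1
    · exact absurd h1 (ENNReal.ofReal_pos.2 Real.two_pi_pos).ne'
    · exact h1
  rw [Measure.map_apply hF hN]
  have hsub : F ⁻¹' N ⊆ ⋃ j : ℤ, G ⁻¹' (N' j) := by
    intro x hx
    obtain ⟨j, hj, -⟩ := existsUnique_add_zsmul_mem_Ioc Real.two_pi_pos (F x) 0
    rw [mem_iUnion]
    refine ⟨-j, ?_⟩
    have hmem : F x ∈ Ioc (((-j : ℤ) : ℝ) * T) (((-j : ℤ) : ℝ) * T + T) := by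
      simp only [zsmul_eq_mul, zero_add] at hj
      constructor
      · have := hj.1
        push_cast
        simp only [T]
        linarith
      · have := hj.2
        push_cast
        simp only [T]
        linarith
    show ((AddCircle.measurableEquivIoc T (((-j : ℤ) : ℝ) * T) ((F x : ℝ) : AddCircle T) :
        Ioc (((-j : ℤ) : ℝ) * T) (((-j : ℤ) : ℝ) * T + T)) : ℝ) ∈ N
    rw [hpt (-j) (F x) hmem]
    exact hx
  refine measure_mono_null hsub (measure_iUnion_null (fun j => ?_))
  have := hN'0 j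
  rwa [hμ, Measure.map_apply hGm (hN'm j)] at this

end Pool.Agent.R244.WG
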