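import Pool.Agent.R244.WG.Stm

set_option autoImplicit false

/-!
# WG-CNT: counting words with linked letters (helper58)
-/

namespace Pool.Agent.R244.WG

open MeasureTheory Set Metric Topology Filter

lemma cnt_half {b : ℕ} {X : Type} [Fintype X] [LinearOrder X] (Vs V' : Finset X) (f : X → X)
    (hsub : V' ⊆ Vs)
    (huniq : ∀ w₁ w₂ : X → Fin b, (∀ v ∈ V', w₁ v = w₁ (f v)) → (∀ v ∈ V', w₂ v = w₂ (f v)) →
      (∀ x, x ∉ V' → w₁ x = w₂ x) → w₁ = w₂) :
    Fintype.card {w : X → Fin b // ∀ v ∈ Vs, w v = w (f v)} * b ^ V'.card ≤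
      b ^ Fintype.card X := by
  have h1 : Fintype.card ({w : X → Fin b // ∀ v ∈ Vs, w v = w (f v)} × (V' → Fin b)) ≤
      Fintype.card (X → Fin b) := by
    apply Fintype.card_le_of_injective
      (fun p : {w : X → Fin b // ∀ v ∈ Vs, w v = w (f v)} × (V' → Fin b) =>
        fun x => if h : x ∈ V' then p.2 ⟨x, h⟩ else p.1.1 x)
    rintro ⟨⟨w₁, hw₁⟩, g₁⟩ ⟨⟨w₂, hw₂⟩, g₂⟩ he
    have hx : ∀ x, (if h : x ∈ V' then g₁ ⟨x, h⟩ else w₁ x) =
        (if h : x ∈ V' then g₂ ⟨x, h⟩ else w₂ x) := fun x => congrFun he x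
    have hg : g₁ = g₂ := by
      funext ⟨x, h⟩
      have := hx x
      rw [dif_pos h, dif_pos h] at this
      exact this
    have hw : w₁ = w₂ := by
      apply huniq w₁ w₂ (fun v hv => hw₁ v (hsub hv)) (fun v hv => hw₂ v (hsub hv))
      intro x h
      have := hx x
      rw [dif_neg h, dif_neg h] at this
      exact this
    subst hg
    subst hw
    rfl
  rw [Fintype.card_prod, Fintype.card_fun, Fintype.card_fun, Fintype.card_fin,
    Fintype.card_coe] at h1
  exact h1

theorem t_CNT : S_CNT := by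
  intro b X _ _ Vs f _ hf
  have hp := cnt_half (b := b) Vs (Vs.filter (fun v => v < f v)) f (Finset.filter_subset _ _) (by
    intro w₁ w₂ h1 h2 h3
    funext x
    induction x using (wellFounded_gt (α := X)).induction with
    | _ x ih =>
      by_cases hx : x ∈ Vs.filter (fun v => v < f v)
      · rw [h1 x hx, h2 x hx]
        exact ih (f x) (Finset.mem_filter.1 hx).2
      · exact h3 x hx)
  have hm := cnt_half (b := b) Vs (Vs.filter (fun v => ¬ v < f v)) f (Finset.filter_subset _ _) (by
    intro w₁ w₂ h1 h2 h3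
    funext x
    induction x using (wellFounded_lt (α := X)).induction with
    | _ x ih =>
      by_cases hx : x ∈ Vs.filter (fun v => ¬ v < f v)
      · rw [h1 x hx, h2 x hx]
        have h4 := Finset.mem_filter.1 hx
        exact ih (f x) (lt_of_le_of_ne (not_lt.1 h4.2) (hf x h4.1))
      · exact h3 x hx)
  have hcard : (Vs.filter (fun v => v < f v)).card + (Vs.filter (fun v => ¬ v < f v)).card =
      Vs.card := Finset.card_filter_add_card_filter_not _
  have h5 := Nat.mul_le_mul hp hm
  rw [← hcard, pow_add, two_mul, pow_add]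
  calc _ = _ := by ring
    _ ≤ _ := h5

end Pool.Agent.R244.WG
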