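import Pool.Agent.R244.WG.Stm

namespace Pool.Agent.R244.WG

open MeasureTheory Set Metric Topology Filter

namespace COEF

theorem tent_bd {b : ℕ} (hb : 2 ≤ b) (k : ℕ) (y : ℝ) : 0 ≤ tent b k y ∧ tent b k y ≤ 1 := by
  have hb1 : (1 : ℝ) ≤ (b : ℝ) := by exact_mod_cast (by omega : 1 ≤ b)
  have hbk : (1 : ℝ) ≤ (b : ℝ) ^ k := one_le_pow₀ hb1
  have h0 := Int.fract_nonneg ((b : ℝ) ^ k * y)
  have h1 := (Int.fract_lt_one ((b : ℝ) ^ k * y)).le
  unfold tent
  constructor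
  · apply div_nonneg _ (by linarith)
    exact le_min h0 (by linarith)
  · rw [div_le_one (by linarith)]
    exact (min_le_left _ _).trans (by linarith)

theorem wd_shift (b k i : ℕ) (x : ℝ) : wd b k 0 ((b : ℝ) ^ i * x) = wd b k i x := by
  unfold wd
  rw [pow_zero, one_mul]

theorem sq_summable : Summable fun k : ℕ => 1 / ((k : ℝ) + 1) ^ 2 := by
  have h := (summable_nat_add_iff 1).2 (Real.summable_one_div_nat_pow.2 (one_lt_two))
  simpa using h

theorem term_bd {b : ℕ} (hb : 2 ≤ b) (c : Om) (k : ℕ) (y : ℝ) :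
    |1 / ((k : ℝ) + 1) ^ 2 * ((c (k, wd b k 0 y) : ℝ) * tent b k y)| ≤ 1 / ((k : ℝ) + 1) ^ 2 := by
  obtain ⟨ht0, ht1⟩ := tent_bd hb k y
  have hc0 : (0 : ℝ) ≤ (c (k, wd b k 0 y) : ℝ) := (c (k, wd b k 0 y)).2.1
  have hc1 : (c (k, wd b k 0 y) : ℝ) ≤ 1 := (c (k, wd b k 0 y)).2.2
  have hp : (0 : ℝ) ≤ 1 / ((k : ℝ) + 1) ^ 2 := by positivity
  have hm0 : 0 ≤ (c (k, wd b k 0 y) : ℝ) * tent b k y := mul_nonneg hc0 ht0
  have hm1 : (c (k, wd b k 0 y) : ℝ) * tent b k y ≤ 1 := mul_le_one₀ hc1 ht0 ht1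
  rw [abs_of_nonneg (mul_nonneg hp hm0)]
  exact mul_le_of_le_one_right hp hm1

theorem term_summable {b : ℕ} (hb : 2 ≤ b) (c : Om) (y : ℝ) :
    Summable fun k : ℕ => 1 / ((k : ℝ) + 1) ^ 2 * ((c (k, wd b k 0 y) : ℝ) * tent b k y) :=
  Summable.of_norm_bounded sq_summable fun k => by
    rw [Real.norm_eq_abs]
    exact term_bd hb c k y

theorem rnd_bd {b : ℕ} (hb : 2 ≤ b) (c : Om) (y : ℝ) :
    |rnd b c y| ≤ ∑' k : ℕ, 1 / ((k : ℝ) + 1) ^ 2 := by
  unfold rnd
  have h := tsum_of_norm_bounded (f := fun k : ℕ =>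
    1 / ((k : ℝ) + 1) ^ 2 * ((c (k, wd b k 0 y) : ℝ) * tent b k y)) sq_summable.hasSum
    (fun k => by rw [Real.norm_eq_abs]; exact term_bd hb c k y)
  rwa [Real.norm_eq_abs] at h

theorem rnd_update {b : ℕ} (hb : 2 ≤ b) (c : Om) (k u : ℕ) (v : unitInterval) (y : ℝ) :
    rnd b (Function.update c (k, u) v) y = rnd b c y +
      ((v : ℝ) - (c (k, u) : ℝ)) / ((k : ℝ) + 1) ^ 2 *
        (if wd b k 0 y = u then tent b k y else 0) := by
  unfold rnd
  set D : ℝ := ((v : ℝ) - (c (k, u) : ℝ)) / ((k : ℝ) + 1) ^ 2 *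
        (if wd b k 0 y = u then tent b k y else 0) with hD
  have h1 : ∀ k' : ℕ, 1 / ((k' : ℝ) + 1) ^ 2 *
      ((Function.update c (k, u) v (k', wd b k' 0 y) : ℝ) * tent b k' y) =
      1 / ((k' : ℝ) + 1) ^ 2 * ((c (k', wd b k' 0 y) : ℝ) * tent b k' y) +
        (if k' = k then D else 0) := by
    intro k'
    by_cases hk : k' = k
    · subst hk
      by_cases hu : wd b k' 0 y = u
      · rw [hu, Function.update_self, if_pos rfl, hD, if_pos hu]
        ring
      · rw [Function.update_of_ne (by simp [hu]), if_pos rfl, hD, if_neg hu]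
        ring
    · rw [Function.update_of_ne (by simp [hk]), if_neg hk, add_zero]
  rw [tsum_congr h1, Summable.tsum_add (term_summable hb c y)
    (summable_of_finite_support ((Set.finite_singleton k).subset (by
      intro j hj
      by_contra h
      exact hj (if_neg h)))), tsum_ite_eq]

theorem geo {b : ℕ} {α : ℝ} (hb : 2 ≤ b) (hα : 0 < α) :
    Summable fun i : ℕ => (b : ℝ) ^ (-(α * i)) := by
  have hb1 : (1 : ℝ) < (b : ℝ) := by exact_mod_cast (by omega : 1 < b)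
  have h : ∀ i : ℕ, (b : ℝ) ^ (-(α * i)) = ((b : ℝ) ^ (-α)) ^ i := by
    intro i
    rw [← Real.rpow_natCast, ← Real.rpow_mul (by linarith)]
    congr 1
    ring
  simp_rw [h]
  exact summable_geometric_of_lt_one (by positivity)
    (Real.rpow_lt_one_of_one_lt_of_neg hb1 (by linarith))

theorem W_summable {b : ℕ} {α : ℝ} (hb : 2 ≤ b) (hα : 0 < α) (g : ℝ → ℝ) (B : ℝ)
    (hg : ∀ y, |g y| ≤ B) (x : ℝ) :
    Summable fun i : ℕ => (b : ℝ) ^ (-(α * i)) * g ((b : ℝ) ^ i * x) := by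
  refine Summable.of_norm_bounded ((geo hb hα).mul_right B) fun i => ?_
  rw [norm_mul, Real.norm_eq_abs, Real.norm_eq_abs,
    abs_of_nonneg (Real.rpow_nonneg (Nat.cast_nonneg b) _)]
  exact mul_le_mul_of_nonneg_left (hg _) (Real.rpow_nonneg (Nat.cast_nonneg b) _)

end COEF

open COEF

theorem t_COEF : S_COEF := by
  intro b α hb hα c k u v x
  have h1 : ∀ i : ℕ, (b : ℝ) ^ (-(α * i)) *
      rnd b (Function.update c (k, u) v) ((b : ℝ) ^ i * x) =
      (b : ℝ) ^ (-(α * i)) * rnd b c ((b : ℝ) ^ i * x) +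
        ((v : ℝ) - (c (k, u) : ℝ)) / ((k : ℝ) + 1) ^ 2 * ((b : ℝ) ^ (-(α * i)) *
          (if wd b k i x = u then tent b k ((b : ℝ) ^ i * x) else 0)) := by
    intro i
    rw [rnd_update hb, wd_shift]
    ring
  have hs1 : Summable fun i : ℕ => (b : ℝ) ^ (-(α * i)) * rnd b c ((b : ℝ) ^ i * x) :=
    W_summable hb hα _ _ (rnd_bd hb c) x
  have hs2 : Summable fun i : ℕ => (b : ℝ) ^ (-(α * i)) *
      (if wd b k i x = u then tent b k ((b : ℝ) ^ i * x) else 0) := by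
    have h := W_summable hb hα (fun y => if wd b k 0 y = u then tent b k y else 0) 1
      (fun y => by
        show |if wd b k 0 y = u then tent b k y else 0| ≤ 1
        split_ifs
        · rw [abs_of_nonneg (tent_bd hb k y).1]; exact (tent_bd hb k y).2
        · simp) x
    simpa only [wd_shift] using h
  unfold W V
  rw [tsum_congr h1, Summable.tsum_add hs1 (hs2.mul_left _), tsum_mul_left]

end Pool.Agent.R244.WG
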