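import Pool.Agent.R244.WG.Stm

/-!
# WG-FREE: freezing all coefficients but one
-/

set_option autoImplicit false

namespace Pool.Agent.R244.WG

open MeasureTheory Set Metric Topology Filter

lemma FREE_meas (i₀ : ℕ × ℕ) :
    Measurable (fun p : Om × unitInterval => Function.update p.1 i₀ p.2) := by
  rw [measurable_pi_iff]
  intro i
  by_cases h : i = i₀
  · subst h
    simp only [Function.update_self]
    exact measurable_snd
  · simp only [Function.update_of_ne h]
    exact (measurable_pi_apply i).comp measurable_fst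

lemma FREE_map (ρ : Measure unitInterval) [IsProbabilityMeasure ρ] (i₀ : ℕ × ℕ) :
    ((PP ρ).prod ρ).map (fun p : Om × unitInterval => Function.update p.1 i₀ p.2) = PP ρ := by
  unfold PP
  apply Measure.eq_infinitePi
  intro s t ht
  rw [Measure.map_apply (FREE_meas i₀)
    (MeasurableSet.pi s.countable_toSet fun i _ => ht i)]
  have e : (fun p : Om × unitInterval => Function.update p.1 i₀ p.2) ⁻¹' (Set.pi s t) =
      (Set.pi (s.erase i₀) t) ×ˢ (if i₀ ∈ s then t i₀ else univ) := by
    ext ⟨c, v⟩
    simp only [mem_preimage, Set.mem_pi, Finset.mem_coe, mem_prod, Finset.mem_erase]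
    constructor
    · intro h
      refine ⟨fun i hi => ?_, ?_⟩
      · have := h i hi.2
        rwa [Function.update_of_ne hi.1] at this
      · split_ifs with h0
        · have := h i₀ h0
          rwa [Function.update_self] at this
        · exact mem_univ _
    · rintro ⟨h1, h2⟩ i hi
      by_cases h : i = i₀
      · subst h
        rw [Function.update_self]
        rwa [if_pos hi] at h2
      · rw [Function.update_of_ne h]
        exact h1 i ⟨h, hi⟩
  rw [e, Measure.prod_prod, Measure.infinitePi_pi _ (fun i _ => ht i)]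
  split_ifs with h0
  · exact Finset.prod_erase_mul s (fun i => ρ (t i)) h0
  · rw [measure_univ, mul_one, Finset.erase_eq_of_notMem h0]

theorem t_FREE : S_FREE := by
  intro ρ _ i₀ A s hA hAi
  have hP : IsProbabilityMeasure (PP ρ) := by
    unfold PP
    infer_instance
  have hm : Measurable (fun c : Om => Complex.exp (Complex.I *
      ((A c + s * (c i₀ : ℝ) : ℝ) : ℂ))) := by
    apply Complex.measurable_exp.comp
    apply Measurable.const_mul
    apply Complex.measurable_ofReal.comp
    exact hA.add ((measurable_subtype_coe.comp (measurable_pi_apply i₀)).const_mul s)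
  have h1 : ∫ c, Complex.exp (Complex.I * ((A c + s * (c i₀ : ℝ) : ℝ) : ℂ)) ∂PP ρ =
      ∫ p : Om × unitInterval, Complex.exp (Complex.I * ((A p.1 : ℝ) : ℂ)) *
        Complex.exp (Complex.I * ((s * (p.2 : ℝ) : ℝ) : ℂ)) ∂((PP ρ).prod ρ) := by
    conv_lhs => rw [← FREE_map ρ i₀]
    rw [integral_map (FREE_meas i₀).aemeasurable hm.aestronglyMeasurable]
    apply integral_congr_ae
    refine ae_of_all _ fun p => ?_
    dsimp only
    rw [hAi, Function.update_self, ← Complex.exp_add]
    congr 1
    push_cast
    ring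
  rw [h1, integral_prod_mul (fun c : Om => Complex.exp (Complex.I * ((A c : ℝ) : ℂ)))
    (fun x : unitInterval => Complex.exp (Complex.I * ((s * (x : ℝ) : ℝ) : ℂ))), norm_mul]
  have h2 : ‖∫ c, Complex.exp (Complex.I * ((A c : ℝ) : ℂ)) ∂PP ρ‖ ≤ 1 := by
    have h3 := norm_integral_le_of_norm_le_const (μ := PP ρ) (C := 1)
      (f := fun c : Om => Complex.exp (Complex.I * ((A c : ℝ) : ℂ)))
      (ae_of_all _ fun c => by
        rw [mul_comm, Complex.norm_exp_ofReal_mul_I])
    rw [one_mul, probReal_univ] at h3
    exact h3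
  calc _ ≤ 1 * ‖∫ x, Complex.exp (Complex.I * ((s * (x : ℝ) : ℝ) : ℂ)) ∂ρ‖ :=
        mul_le_mul_of_nonneg_right h2 (norm_nonneg _)
    _ = _ := one_mul _

end Pool.Agent.R244.WG
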