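import Pool.Agent.R244.WG.Stm

/-! Project WG (MP_2cc37a_an): piece GOOD. -/

namespace Pool.Agent.R244.WG

open MeasureTheory Set Metric Topology Filter

theorem GOOD_tent_nonneg (b k : ℕ) (x : ℝ) : 0 ≤ tent b k x := by
  unfold tent
  refine div_nonneg (le_min (Int.fract_nonneg _) ?_) (by positivity)
  linarith [Int.fract_lt_one ((b : ℝ) ^ k * x)]

theorem GOOD_tent_le (b k : ℕ) (x : ℝ) : tent b k x ≤ 1 / 2 / (b : ℝ) ^ k := by
  unfold tent
  refine div_le_div_of_nonneg_right ?_ (by positivity)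
  rcases le_total (Int.fract ((b : ℝ) ^ k * x)) (1 / 2) with h | h
  · exact (min_le_left _ _).trans h
  · exact (min_le_right _ _).trans (by linarith)

theorem t_GOOD : S_GOOD := by
  intro b α q M hb hα
  have hb1 : (1 : ℝ) < b := by exact_mod_cast hb
  have hb0 : (0 : ℝ) < b := by linarith
  obtain ⟨r, hr⟩ : ∃ r : ℝ, r = (b : ℝ) ^ (-α) := ⟨_, rfl⟩
  have hr0 : 0 < r := hr ▸ Real.rpow_pos_of_pos hb0 _
  have hr1 : r < 1 := hr ▸ Real.rpow_lt_one_of_one_lt_of_neg hb1 (by linarith)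
  have h1r : 0 < 1 - r := by linarith
  have hri : ∀ i : ℕ, (b : ℝ) ^ (-(α * i)) = r ^ i := fun i => by
    rw [hr, ← Real.rpow_mul_natCast hb0.le, neg_mul]
  have hA0 : 0 ≤ (M : ℝ) / (1 - r) := by positivity
  obtain ⟨p₁, hp₁⟩ : ∃ p₁ : ℕ, r ^ p₁ < 1 / (b * (1 + M / (1 - r))) :=
    exists_pow_lt_of_lt_one (by positivity) hr1
  refine ⟨q + p₁, Nat.le_add_right _ _, ?_⟩
  intro k hk x ε hε hx hbad
  obtain ⟨P, hP⟩ : ∃ P : ℕ, P = (q + p₁) * k := ⟨_, rfl⟩
  rw [← hP] at hbad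
  have key : (M : ℝ) / (1 - r) * r ^ P ≤ r ^ (q * k) * ((b : ℝ) ^ k)⁻¹ := by
    have hz0 : 0 ≤ r ^ p₁ * b := by positivity
    have hz : (r ^ p₁ * b) * (1 + M / (1 - r)) < 1 := by
      rw [lt_div_iff₀ (by positivity)] at hp₁
      rw [mul_assoc]
      exact hp₁
    have hz1 : r ^ p₁ * b ≤ 1 := by nlinarith
    have hzk : (r ^ p₁ * b) ^ k ≤ r ^ p₁ * b := pow_le_of_le_one hz0 hz1 (by omega)
    have h1 : (M : ℝ) / (1 - r) * (r ^ p₁ * b) ^ k ≤ 1 := by nlinarith
    have h2 : (M : ℝ) / (1 - r) * (r ^ (p₁ * k)) ≤ ((b : ℝ) ^ k)⁻¹ := by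
      rw [mul_pow, ← pow_mul, ← mul_assoc] at h1
      rw [← one_div, le_div_iff₀ (by positivity)]
      exact h1
    have h3 : (M : ℝ) / (1 - r) * r ^ P = r ^ (q * k) * ((M : ℝ) / (1 - r) * (r ^ (p₁ * k))) := by
      rw [hP, add_mul, pow_add]
      ring
    rw [h3]
    exact mul_le_mul_of_nonneg_left h2 (by positivity)
  have hbad' : ∃ l, l < q ∧ ∃ j : Fin M, ∀ i, i < P → ∀ j' : Fin M, (i, j') ≠ (l * k, j) →
      wd b k i (x j') ≠ wd b k (l * k) (x j) := by
    by_contra hcon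
    push Not at hcon
    apply hbad
    refine ⟨fun j => (hx j).1, fun l hl j => ?_⟩
    obtain ⟨i, hi, j', h1, h2⟩ := hcon l hl j
    exact ⟨i, hi, j', h1, h2⟩
  obtain ⟨l, hl, j, hj⟩ := hbad'
  refine ⟨wd b k (l * k) (x j), ?_⟩
  obtain ⟨u, hu⟩ : ∃ u, u = wd b k (l * k) (x j) := ⟨_, rfl⟩
  rw [← hu] at hj ⊢
  obtain ⟨c, hc⟩ : ∃ c : ℝ, c = 1 / 2 / (b : ℝ) ^ k := ⟨_, rfl⟩
  have hc0 : 0 ≤ c := by rw [hc]; positivity
  let f : Fin M → ℕ → ℝ := fun j' i => (b : ℝ) ^ (-(α * i)) *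
    (if wd b k i (x j') = u then tent b k ((b : ℝ) ^ i * x j') else 0)
  have hf0 : ∀ j' i, 0 ≤ f j' i := by
    intro j' i
    simp only [f]
    rw [hri]
    refine mul_nonneg (by positivity) ?_
    split_ifs
    · exact GOOD_tent_nonneg _ _ _
    · exact le_rfl
  have hf1 : ∀ j' i, f j' i ≤ r ^ i * c := by
    intro j' i
    simp only [f]
    rw [hri]
    refine mul_le_mul_of_nonneg_left ?_ (by positivity)
    split_ifs
    · rw [hc]; exact GOOD_tent_le _ _ _
    · exact hc0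
  have hgeo : Summable (fun i : ℕ => r ^ i * c) :=
    (summable_geometric_of_lt_one hr0.le hr1).mul_right c
  have hfs : ∀ j', Summable (f j') := fun j' => Summable.of_nonneg_of_le (hf0 j') (hf1 j') hgeo
  have hsplit : ∀ j', V b α k u (x j') = ∑ i ∈ Finset.range P, f j' i + ∑' i, f j' (i + P) :=
    fun j' => ((hfs j').sum_add_tsum_nat_add P).symm
  have htail0 : ∀ j', 0 ≤ ∑' i, f j' (i + P) := fun j' => tsum_nonneg fun i => hf0 _ _
  have htail : ∀ j', ∑' i, f j' (i + P) ≤ r ^ P / (1 - r) * c := by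
    intro j'
    have h1 : ∑' i, f j' (i + P) ≤ ∑' i : ℕ, r ^ i * (r ^ P * c) := by
      refine Summable.tsum_le_tsum (fun i => ?_) ((summable_nat_add_iff P).2 (hfs j'))
        ((summable_geometric_of_lt_one hr0.le hr1).mul_right _)
      refine (hf1 j' (i + P)).trans (le_of_eq ?_)
      rw [pow_add]; ring
    rw [tsum_mul_right, tsum_geometric_of_lt_one hr0.le hr1] at h1
    refine h1.trans (le_of_eq ?_)
    rw [div_eq_mul_inv]; ring
  have hlk : l * k < P := by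
    rw [hP]
    exact Nat.mul_lt_mul_of_pos_right (by omega) (by omega)
  obtain ⟨T, hT⟩ : ∃ T : ℝ, T = r ^ (l * k) * tent b k ((b : ℝ) ^ (l * k) * x j) := ⟨_, rfl⟩
  have hhead : ∀ j', ∑ i ∈ Finset.range P, f j' i = if j' = j then T else 0 := by
    intro j'
    split_ifs with h
    · rw [h, Finset.sum_eq_single (l * k)]
      · simp only [f]
        rw [if_pos hu.symm, hri, hT]
      · intro i hi hne
        simp only [f]
        rw [if_neg (hj i (Finset.mem_range.1 hi) j (by simp [hne])), mul_zero]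
      · intro h
        exact absurd (Finset.mem_range.2 hlk) h
    · refine Finset.sum_eq_zero fun i hi => ?_
      simp only [f]
      rw [if_neg (hj i (Finset.mem_range.1 hi) j' (by simp [h])), mul_zero]
  have hsum : ∑ j', ε j' * V b α k u (x j') = ε j * T + ∑ j', ε j' * ∑' i, f j' (i + P) := by
    have : ∀ j', ε j' * V b α k u (x j') =
        (if j' = j then ε j' * T else 0) + ε j' * ∑' i, f j' (i + P) := by
      intro j'
      rw [hsplit, hhead, mul_add]
      split_ifs <;> simp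
    simp only [this, Finset.sum_add_distrib, Finset.sum_ite_eq', Finset.mem_univ, if_true]
  have hT0 : 0 ≤ T := by
    rw [hT]; exact mul_nonneg (by positivity) (GOOD_tent_nonneg _ _ _)
  have hTge : r ^ (q * k) * ((b : ℝ) ^ (2 * k))⁻¹ ≤ T := by
    rw [hT]
    refine mul_le_mul (pow_le_pow_of_le_one hr0.le hr1.le (Nat.mul_le_mul_right k hl.le))
      ((hx j).2 l hl) (by positivity) (by positivity)
  have h1 : |ε j * T| = T := by rw [abs_mul, hε, one_mul, abs_of_nonneg hT0]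
  have h2 : |∑ j', ε j' * ∑' i, f j' (i + P)| ≤ M * (r ^ P / (1 - r) * c) := by
    refine (Finset.abs_sum_le_sum_abs _ _).trans ?_
    have : ∀ j' ∈ (Finset.univ : Finset (Fin M)),
        |ε j' * ∑' i, f j' (i + P)| ≤ r ^ P / (1 - r) * c := by
      intro j' _
      rw [abs_mul, hε, one_mul, abs_of_nonneg (htail0 j')]
      exact htail j'
    refine (Finset.sum_le_card_nsmul _ _ _ this).trans (le_of_eq ?_)
    simp
  have h3 : (M : ℝ) * (r ^ P / (1 - r) * c) ≤ r ^ (q * k) * ((b : ℝ) ^ (2 * k))⁻¹ / 2 := by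
    have e1 : (M : ℝ) * (r ^ P / (1 - r) * c) = (M / (1 - r) * r ^ P) * c := by ring
    have e2 : r ^ (q * k) * ((b : ℝ) ^ (2 * k))⁻¹ / 2 = (r ^ (q * k) * ((b : ℝ) ^ k)⁻¹) * c := by
      rw [hc, two_mul, pow_add, mul_inv]
      ring
    rw [e1, e2]
    exact mul_le_mul_of_nonneg_right key hc0
  have h4 : (b : ℝ) ^ (-(α * (q * k))) = r ^ (q * k) := by
    have := hri (q * k)
    push_cast at this
    exact this
  rw [h4, hsum]
  have h5 := abs_sub_abs_le_abs_sub (ε j * T) (-(∑ j', ε j' * ∑' i, f j' (i + P)))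
  rw [abs_neg, sub_neg_eq_add, h1] at h5
  linarith

end Pool.Agent.R244.WG
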