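import Pool.Agent.R244.WG.Stm

/-!
Project WG (MP_2cc37a_an), piece WG-MEAS: the random sum is a Borel function on `Lip`.
-/

namespace Pool.Agent.R244.WG

open MeasureTheory Set Metric Topology Filter
open scoped ENNReal NNReal

theorem meas_FC_continuous (hW : S_WB) (b : ℕ) (α : ℝ) (hb : 2 ≤ b) (hα : 0 < α) (A : Set ℝ)
    (hA : volume A < ⊤) (t n : ℝ) : Continuous (fun g : Lip => FC b α A g.1 t n) := by
  obtain ⟨hc, -, ⟨C, hC0, hC⟩, hsub⟩ := hW b α hb hα
  unfold FC
  haveI : IsFiniteMeasure (volume.restrict A) := ⟨by simpa using hA⟩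
  have hWc : ∀ x : ℝ, Continuous (fun g : Lip => W b α g.1 x) := by
    intro x
    have hl : LipschitzWith (Real.toNNReal C) (fun g : Lip => W b α g.1 x) := by
      refine LipschitzWith.of_dist_le_mul fun g h => ?_
      rw [Real.dist_eq, dist_eq_norm, Real.coe_toNNReal C hC0]
      have h1 := hsub g.1 g.2 h.1 h.2 x
      rw [← h1]
      exact hC (g.1 - h.1) (lipSub.sub_mem g.2 h.2) ‖g - h‖ (fun y => ev_le (g - h) y) x
    exact hl.continuous
  refine continuous_of_dominated (bound := fun _ => (1 : ℝ)) ?_ ?_ ?_ ?_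
  · intro g
    have hg : Continuous (W b α g.1) := hc g.1 g.2
    have : Continuous (fun x : ℝ => Complex.exp (Complex.I * ((n * (W b α g.1 x + t * x) : ℝ) : ℂ))) := by
      fun_prop
    exact this.aestronglyMeasurable
  · intro g
    refine Eventually.of_forall fun x => ?_
    rw [mul_comm]
    exact (Complex.norm_exp_ofReal_mul_I _).le
  · exact integrable_const _
  · refine Eventually.of_forall fun x => ?_
    have hg := hWc x
    fun_prop

theorem t_MEAS (hW : S_WB) (_hE : S_EK) : S_MEAS := by
  intro b α q m s K R₀ hb hα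
  letI : MeasurableSpace Lip := borel Lip
  haveI : BorelSpace Lip := ⟨rfl⟩
  have hfin : volume (E b q K) < ⊤ := by
    refine lt_of_le_of_lt (measure_mono (fun x hx => hx.1 : E b q K ⊆ Ico (0 : ℝ) 1)) ?_
    simp
  unfold SS
  refine Measurable.ennreal_tsum fun n => ?_
  refine Finset.measurable_sum _ fun j _ => ?_
  refine Measurable.const_mul ?_ _
  refine Measurable.pow_const ?_ _
  have hcont := meas_FC_continuous hW b α hb hα (E b q K) hfin ((j : ℝ) / ((n : ℝ) + 1) ^ 2)
    ((n : ℝ) + 1)
  exact (continuous_enorm.comp hcont).measurable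

end Pool.Agent.R244.WG
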