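import Pool.Agent.R244.WG.Stm

/-! Project WG (MP_2cc37a_an): piece RHO. -/

namespace Pool.Agent.R244.WG

open MeasureTheory Set Metric Topology Filter

/-- the mean of `R` numbers in the unit interval -/
noncomputable def RHO_mean (R : ℕ) (x : Fin R → unitInterval) : unitInterval :=
  ⟨(∑ i, (x i : ℝ)) / R, by
    constructor
    · exact div_nonneg (Finset.sum_nonneg fun i _ => (x i).2.1) (Nat.cast_nonneg _)
    · apply div_le_one_of_le₀ _ (Nat.cast_nonneg _)
      calc ∑ i, (x i : ℝ) ≤ ∑ _i : Fin R, (1 : ℝ) := Finset.sum_le_sum fun i _ => (x i).2.2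
        _ = R := by simp⟩

theorem RHO_meas (R : ℕ) : Measurable (RHO_mean R) := by
  apply Measurable.subtype_mk
  apply Measurable.div_const
  exact Finset.measurable_sum _ fun i _ => measurable_subtype_coe.comp (measurable_pi_apply i)

theorem RHO_one (s : ℝ) (hs : s ≠ 0) :
    ‖∫ x : unitInterval, Complex.exp (Complex.I * ((s * (x : ℝ) : ℝ) : ℂ))‖ ≤ 2 / |s| := by
  have h1 : ∫ x : unitInterval, Complex.exp (Complex.I * ((s * (x : ℝ) : ℝ) : ℂ)) =
      ∫ x in Icc (0 : ℝ) 1, Complex.exp (Complex.I * ((s * x : ℝ) : ℂ)) := by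
    exact MeasureTheory.integral_subtype_comap (μ := volume) measurableSet_Icc
      (fun x : ℝ => Complex.exp (Complex.I * ((s * x : ℝ) : ℂ)))
  rw [h1, integral_Icc_eq_integral_Ioc, ← intervalIntegral.integral_of_le zero_le_one]
  have hc : (Complex.I * (s : ℂ)) ≠ 0 := by
    simp [hs]
  have h2 : ∫ x in (0 : ℝ)..1, Complex.exp (Complex.I * ((s * x : ℝ) : ℂ)) =
      ∫ x in (0 : ℝ)..1, Complex.exp ((Complex.I * (s : ℂ)) * (x : ℂ)) := by
    congr 1
    ext x
    push_cast
    ring_nf
  rw [h2, integral_exp_mul_complex hc, norm_div]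
  have h3 : ‖Complex.I * (s : ℂ)‖ = |s| := by simp
  rw [h3]
  apply div_le_div_of_nonneg_right _ (abs_nonneg s)
  refine (norm_sub_le _ _).trans ?_
  have e1 : ∀ y : ℝ, ‖Complex.exp (Complex.I * (s : ℂ) * (y : ℂ))‖ = 1 := by
    intro y
    have : Complex.I * (s : ℂ) * (y : ℂ) = ((s * y : ℝ) : ℂ) * Complex.I := by
      push_cast; ring
    rw [this, Complex.norm_exp_ofReal_mul_I]
  rw [e1, e1]
  norm_num

theorem t_RHO : S_RHO := by
  intro R
  rcases Nat.eq_zero_or_pos R with rfl | hR
  · refine ⟨volume, inferInstance, 1, fun s _ => ?_⟩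
    rw [pow_zero, div_one]
    refine (norm_integral_le_of_norm_le_const (C := 1) (Eventually.of_forall fun x => ?_)).trans ?_
    · have : Complex.I * ((s * (x : ℝ) : ℝ) : ℂ) = ((s * (x : ℝ) : ℝ) : ℂ) * Complex.I := by ring
      rw [this, Complex.norm_exp_ofReal_mul_I]
    · simp
  have hR' : (0 : ℝ) < R := by exact_mod_cast hR
  refine ⟨(Measure.pi fun _ : Fin R => (volume : Measure unitInterval)).map (RHO_mean R),
    Measure.isProbabilityMeasure_map (RHO_meas R).aemeasurable, (2 * R) ^ R, fun s hs => ?_⟩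
  rw [integral_map (RHO_meas R).aemeasurable]
  · have h1 : ∀ x : Fin R → unitInterval,
        Complex.exp (Complex.I * ((s * (RHO_mean R x : ℝ) : ℝ) : ℂ)) =
          ∏ i, Complex.exp (Complex.I * (((s / R) * (x i : ℝ) : ℝ) : ℂ)) := by
      intro x
      rw [← Complex.exp_sum, ← Finset.mul_sum, ← Complex.ofReal_sum, ← Finset.mul_sum]
      congr 3
      simp only [RHO_mean]
      ring
    simp only [h1]
    rw [integral_fintype_prod_eq_prod (𝕜 := ℂ)
      (f := fun (_ : Fin R) (x : unitInterval) =>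
        Complex.exp (Complex.I * (((s / R) * (x : ℝ) : ℝ) : ℂ)))]
    rw [Finset.prod_const, norm_pow, Finset.card_univ, Fintype.card_fin, ← div_pow]
    apply pow_le_pow_left₀ (norm_nonneg _)
    refine (RHO_one (s / R) (div_ne_zero hs hR'.ne')).trans (le_of_eq ?_)
    rw [abs_div, abs_of_pos hR']
    field_simp
  · apply Continuous.aestronglyMeasurable
    fun_prop

end Pool.Agent.R244.WG
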