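import Pool.Agent.R244.WG.Stm

/-! Project WG (MP_2cc37a_an): piece WB. -/

namespace Pool.Agent.R244.WG

open MeasureTheory Set Metric Topology Filter

theorem t_WB : S_WB := by
  intro b α hb hα
  have hb1 : (1 : ℝ) < b := by exact_mod_cast hb
  have hb0 : (0 : ℝ) < b := by linarith
  obtain ⟨r, hr⟩ : ∃ r : ℝ, r = (b : ℝ) ^ (-α) := ⟨_, rfl⟩
  have hr0 : 0 < r := hr ▸ Real.rpow_pos_of_pos hb0 _
  have hr1 : r < 1 := hr ▸ Real.rpow_lt_one_of_one_lt_of_neg hb1 (by linarith)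
  have h1r : 0 < 1 - r := by linarith
  have hri : ∀ i : ℕ, (b : ℝ) ^ (-(α * i)) = r ^ i := fun i => by
    rw [hr, ← Real.rpow_mul_natCast hb0.le, neg_mul]
  have hbd : ∀ g ∈ lipSub, ∃ B : ℝ, ∀ x, |g x| ≤ B := fun g hg => by
    obtain ⟨B, hB⟩ := bdd1 hg
    exact ⟨B, fun x => hB ⟨x, rfl⟩⟩
  have hgeo : ∀ B : ℝ, Summable (fun k : ℕ => r ^ k * B) := fun B =>
    (summable_geometric_of_lt_one hr0.le hr1).mul_right B
  have hterm : ∀ (g : ℝ → ℝ) (B : ℝ), (∀ x, |g x| ≤ B) → ∀ (k : ℕ) (x : ℝ),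
      ‖(b : ℝ) ^ (-(α * k)) * g ((b : ℝ) ^ k * x)‖ ≤ r ^ k * B := by
    intro g B hB k x
    rw [hri, norm_mul, Real.norm_eq_abs, Real.norm_eq_abs, abs_of_nonneg (by positivity)]
    exact mul_le_mul_of_nonneg_left (hB _) (by positivity)
  have hsum : ∀ g ∈ lipSub, ∀ x,
      Summable (fun k : ℕ => (b : ℝ) ^ (-(α * k)) * g ((b : ℝ) ^ k * x)) := by
    intro g hg x
    obtain ⟨B, hB⟩ := hbd g hg
    exact Summable.of_norm_bounded (hgeo B) fun k => hterm g B hB k x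
  refine ⟨?_, ?_, ?_, ?_⟩
  · intro g hg
    obtain ⟨B, hB⟩ := hbd g hg
    obtain ⟨-, C, hC⟩ := hg
    have : W b α g = fun x => ∑' k : ℕ, (b : ℝ) ^ (-(α * k)) * g ((b : ℝ) ^ k * x) := rfl
    rw [this]
    refine continuous_tsum (u := fun k => r ^ k * B) (fun k => ?_) (hgeo B)
      (fun k x => hterm g B hB k x)
    exact continuous_const.mul (hC.continuous.comp (continuous_const.mul continuous_id))
  · intro g hg h hh x
    unfold W
    rw [← (hsum g hg x).tsum_add (hsum h hh x)]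
    refine tsum_congr fun k => ?_
    rw [Pi.add_apply, mul_add]
  · refine ⟨(1 - r)⁻¹, by positivity, fun g hg B hB x => ?_⟩
    unfold W
    rw [← Real.norm_eq_abs]
    refine tsum_of_norm_bounded (g := fun k => r ^ k * B) ?_ fun k => hterm g B hB k x
    exact (hasSum_geometric_of_lt_one hr0.le hr1).mul_right B
  · intro g hg h hh x
    unfold W
    rw [← (hsum g hg x).tsum_sub (hsum h hh x)]
    refine tsum_congr fun k => ?_
    rw [Pi.sub_apply, mul_sub]

end Pool.Agent.R244.WG
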