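import Pool.Agent.R244.WG.Stm

/-!
WG-WB (second copy): basic facts on the Weierstrass function.
-/

namespace Pool.Agent.R244.WG

open MeasureTheory Set Metric Topology Filter

namespace WBb

lemma r_sum (b : ℕ) (α : ℝ) (hb : 2 ≤ b) (hα : 0 < α) :
    Summable (fun k : ℕ => (b : ℝ) ^ (-(α * k))) := by
  have hb1 : (1 : ℝ) < b := by exact_mod_cast hb
  have h1 : ∀ k : ℕ, (b : ℝ) ^ (-(α * k)) = ((b : ℝ) ^ (-α)) ^ k := by
    intro k
    rw [← Real.rpow_natCast, ← Real.rpow_mul (by linarith)]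
    congr 1
    ring
  simp only [h1]
  refine summable_geometric_of_lt_one (Real.rpow_nonneg (by linarith) _) ?_
  exact Real.rpow_lt_one_of_one_lt_of_neg hb1 (by linarith)

lemma bdd (g : ℝ → ℝ) (hg : g ∈ lipSub) : ∃ B : ℝ, ∀ x, |g x| ≤ B := by
  obtain ⟨B, hB⟩ := bdd1 hg
  exact ⟨B, fun x => hB ⟨x, rfl⟩⟩

lemma term_le (b : ℕ) (α : ℝ) (g : ℝ → ℝ) (B : ℝ) (hB : ∀ x, |g x| ≤ B) (k : ℕ) (x : ℝ) :
    ‖(b : ℝ) ^ (-(α * k)) * g ((b : ℝ) ^ k * x)‖ ≤ (b : ℝ) ^ (-(α * k)) * B := by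
  have h0 : (0 : ℝ) ≤ (b : ℝ) ^ (-(α * k)) := Real.rpow_nonneg (by positivity) _
  rw [norm_mul, Real.norm_eq_abs, Real.norm_eq_abs, abs_of_nonneg h0]
  exact mul_le_mul_of_nonneg_left (hB _) h0

lemma t_sum (b : ℕ) (α : ℝ) (hb : 2 ≤ b) (hα : 0 < α) (g : ℝ → ℝ) (hg : g ∈ lipSub) (x : ℝ) :
    Summable (fun k : ℕ => (b : ℝ) ^ (-(α * k)) * g ((b : ℝ) ^ k * x)) := by
  obtain ⟨B, hB⟩ := bdd g hg
  exact Summable.of_norm_bounded ((r_sum b α hb hα).mul_right B) fun k => term_le b α g B hB k x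

end WBb

open WBb in
theorem t_WBb : S_WB := by
  intro b α hb hα
  refine ⟨?_, ?_, ?_, ?_⟩
  · intro g hg
    obtain ⟨B, hB⟩ := bdd g hg
    obtain ⟨-, C, hC⟩ := hg
    unfold W
    refine continuous_tsum (fun k => ?_) ((r_sum b α hb hα).mul_right B) fun k x =>
      term_le b α g B hB k x
    exact continuous_const.mul (hC.continuous.comp (continuous_const.mul continuous_id))
  · intro g hg h hh x
    unfold W
    rw [← (t_sum b α hb hα g hg x).tsum_add (t_sum b α hb hα h hh x)]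
    refine tsum_congr fun k => ?_
    rw [Pi.add_apply, mul_add]
  · refine ⟨∑' k : ℕ, (b : ℝ) ^ (-(α * k)), tsum_nonneg fun k =>
      Real.rpow_nonneg (by positivity) _, ?_⟩
    intro g hg B hB x
    unfold W
    rw [← Real.norm_eq_abs]
    have h1 : HasSum (fun k : ℕ => (b : ℝ) ^ (-(α * k)) * B)
        ((∑' k : ℕ, (b : ℝ) ^ (-(α * k))) * B) := (r_sum b α hb hα).hasSum.mul_right B
    exact tsum_of_norm_bounded h1 fun k => term_le b α g B hB k x
  · intro g hg h hh x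
    unfold W
    rw [← (t_sum b α hb hα g hg x).tsum_sub (t_sum b α hb hα h hh x)]
    refine tsum_congr fun k => ?_
    rw [Pi.sub_apply, mul_sub]

end Pool.Agent.R244.WG
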